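import Mathlib
import Pool.Agent.helper78.EQ.Spec

set_option autoImplicit false

open Complex MeasureTheory Set Metric

namespace Pool.Agent.EQ

open Pool.Agent.helper6.LD

/-- a summable majorant -/
theorem helper46_summableM :
    Summable (fun n : ℕ => ‖cm n‖ * (n : ℝ) ^ (-(2 : ℝ))) := by
  have h1 : LSeriesSummable (fun n => ((ArithmeticFunction.moebius n : ℤ) : ℂ)) (2 : ℂ) :=
    ArithmeticFunction.LSeriesSummable_moebius_iff.2 (by norm_num)
  refine h1.norm.congr fun n => ?_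
  rw [LSeries.norm_term_eq]
  rcases eq_or_ne n 0 with rfl | hn
  · simp [cm]
  · rw [if_neg hn, Real.rpow_neg (Nat.cast_nonneg n), div_eq_mul_inv]
    rfl

theorem helper46_DsM (s : ℂ) (hs : s.re = 2) : (riemannZeta s)⁻¹ = Ds cm s := by
  have hs1 : 1 < s.re := by rw [hs]; norm_num
  have h1 := ArithmeticFunction.LSeries_zeta_mul_Lseries_moebius hs1
  rw [ArithmeticFunction.LSeries_zeta_eq_riemannZeta hs1] at h1
  rw [← eq_inv_of_mul_eq_one_right h1]
  unfold Ds LSeries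
  refine tsum_congr fun n => ?_
  rcases eq_or_ne n 0 with rfl | hn
  · simp [cm]
  · rw [LSeries.term_of_ne_zero hn, cpow_neg, div_eq_mul_inv]
    rfl

/-- the final inequality, `L = log X` -/
theorem helper46_finalM (C W ε A : ℝ) (hC : 0 < C) (hW : 0 ≤ W) (hε : 0 < ε) (hA : 1 ≤ A) :
    ∃ L₀ : ℝ, ∀ L : ℝ, L₀ ≤ L → 2 * A + 1 ≤ L ∧
      C * ((2 * Real.exp L) ^ (ε / 2) + Real.exp L ^ (2 * A) *
        ((2 * Real.exp L) ^ (ε / 2) + W) * Real.exp (-L ^ 2)) < Real.exp L ^ ε := by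
  set K : ℝ := C * (2 * 2 ^ (ε / 2) + W) with hK
  have hK0 : 0 < K := by positivity
  refine ⟨max (2 * A + 1) ((2 / ε) * (Real.log K + 1)), fun L hL => ?_⟩
  have h1 : 2 * A + 1 ≤ L := le_trans (le_max_left _ _) hL
  have h2 : (2 / ε) * (Real.log K + 1) ≤ L := le_trans (le_max_right _ _) hL
  refine ⟨h1, ?_⟩
  have hL1 : 1 ≤ L := by linarith
  have h3 : (2 * Real.exp L) ^ (ε / 2) = 2 ^ (ε / 2) * Real.exp (L * (ε / 2)) := by
    rw [Real.mul_rpow (by norm_num) (Real.exp_pos _).le, ← Real.exp_mul]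
  have h4 : Real.exp L ^ (2 * A) * Real.exp (-L ^ 2) ≤ 1 := by
    rw [← Real.exp_mul, ← Real.exp_add, Real.exp_le_one_iff]
    nlinarith
  have h5 : 1 ≤ Real.exp (L * (ε / 2)) := Real.one_le_exp (by positivity)
  have h6 : K < Real.exp (L * (ε / 2)) := by
    have h7 : Real.log K < L * (ε / 2) := by
      have h8 : (2 / ε) * (Real.log K + 1) * (ε / 2) ≤ L * (ε / 2) :=
        mul_le_mul_of_nonneg_right h2 (by positivity)
      have h9 : (2 / ε) * (Real.log K + 1) * (ε / 2) = Real.log K + 1 := by field_simp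
      rw [h9] at h8
      linarith
    exact (Real.log_lt_iff_lt_exp hK0).1 h7
  have h7 : Real.exp L ^ ε = Real.exp (L * (ε / 2)) * Real.exp (L * (ε / 2)) := by
    rw [← Real.exp_mul, ← Real.exp_add]
    congr 1
    ring
  set E : ℝ := Real.exp (L * (ε / 2)) with hE
  have h20 : (0 : ℝ) < 2 ^ (ε / 2) := by positivity
  rw [h3, h7]
  have h8 : Real.exp L ^ (2 * A) * (2 ^ (ε / 2) * E + W) * Real.exp (-L ^ 2) ≤
      2 ^ (ε / 2) * E + W * E := by
    have h9 : 0 ≤ 2 ^ (ε / 2) * E + W := by positivity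
    calc Real.exp L ^ (2 * A) * (2 ^ (ε / 2) * E + W) * Real.exp (-L ^ 2)
        = (Real.exp L ^ (2 * A) * Real.exp (-L ^ 2)) * (2 ^ (ε / 2) * E + W) := by ring
      _ ≤ 1 * (2 ^ (ε / 2) * E + W) := mul_le_mul_of_nonneg_right h4 h9
      _ ≤ 2 ^ (ε / 2) * E + W * E := by nlinarith
  calc C * (2 ^ (ε / 2) * E + Real.exp L ^ (2 * A) * (2 ^ (ε / 2) * E + W) * Real.exp (-L ^ 2))
      ≤ C * (2 ^ (ε / 2) * E + (2 ^ (ε / 2) * E + W * E)) :=
        mul_le_mul_of_nonneg_left (by linarith) hC.le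
    _ = K * E := by rw [hK]; ring
    _ < E * E := mul_lt_mul_of_pos_right h6 (by positivity)

theorem FWM (hTC : TC_stmt) (hSHF : SHF_stmt) : FWM_stmt := by
  intro δ ε A hδ hδ4 hε hA
  obtain ⟨T₀, hT₀, hTC⟩ := hTC (ε / 2) δ (by positivity) hδ hδ4
  obtain ⟨C, hC, hSHF⟩ := hSHF (1 / 2) (by norm_num) le_rfl
  set W : ℝ := ∑' n : ℕ, ‖cm n‖ * (n : ℝ) ^ (-(2 : ℝ)) with hW
  have hW0 : 0 ≤ W := tsum_nonneg fun n => by positivity
  obtain ⟨L₀, hL₀⟩ := helper46_finalM C W ε A hC hW0 hε hA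
  set L₁ : ℝ := max (max L₀ 27) T₀ with hL₁
  refine ⟨Real.exp L₁, ?_, ?_⟩
  · have h1 : (27 : ℝ) ≤ L₁ := le_trans (le_max_right _ _) (le_max_left _ _)
    have h2 := Real.add_one_le_exp L₁
    linarith
  intro X σ t hX hσ1 hσ2 ht1 ht2 hzero N hN1 hN2
  have hX0 : 0 < X := lt_of_lt_of_le (Real.exp_pos _) hX
  set L : ℝ := Real.log X with hL
  have hLL : L₁ ≤ L := (Real.le_log_iff_exp_le hX0).2 hX
  have hXL : X = Real.exp L := (Real.exp_log hX0).symm
  have hL27 : 27 ≤ L := le_trans (le_trans (le_max_right _ _) (le_max_left _ _)) hLL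
  have hLT : T₀ ≤ L := le_trans (le_max_right _ _) hLL
  have hLL0 : L₀ ≤ L := le_trans (le_trans (le_max_left _ _) (le_max_left _ _)) hLL
  obtain ⟨hLA, hfin⟩ := hL₀ L hLL0
  have hLX : L ^ 2 ≤ X := by
    have h1 : L / 3 + 1 ≤ Real.exp (L / 3) := Real.add_one_le_exp _
    have h2 : (L / 3 + 1) ^ 3 ≤ Real.exp (L / 3) ^ 3 := pow_le_pow_left₀ (by linarith) h1 3
    have h3 : Real.exp (L / 3) ^ 3 = X := by
      rw [← Real.exp_nat_mul, hXL]
      congr 1
      push_cast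
      ring
    rw [h3] at h2
    refine le_trans ?_ h2
    have h4 : 0 ≤ L ^ 2 * (L - 27) := mul_nonneg (by positivity) (by linarith)
    have h5 : (L / 3 + 1) ^ 3 = L ^ 3 / 27 + L ^ 2 / 3 + L + 1 := by ring
    rw [h5]
    nlinarith
  have hL2 : 27 ≤ L ^ 2 := by nlinarith
  have hX1 : 1 ≤ X := by linarith
  have hσ0 : (0 : ℝ) ≤ σ := by linarith
  set V : ℝ := (2 * X) ^ (ε / 2) with hV
  have hV0 : 0 ≤ V := by positivity
  have hpt : ∀ s : ℂ, σ ≤ s.re → s.re ≤ 2 → |s.im - t| ≤ L ^ 2 →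
      DifferentiableAt ℂ (fun z => (riemannZeta z)⁻¹) s ∧
        ‖(fun z => (riemannZeta z)⁻¹) s‖ ≤ V := by
    intro s hs1 hs2 hs3
    obtain ⟨hs4, hs5⟩ := abs_le.1 hs3
    have him1 : 2 * L ^ 2 ≤ s.im := by linarith
    have him2 : s.im ≤ 2 * X := by linarith
    have himT : T₀ ≤ s.im := by nlinarith
    have him0 : 0 < s.im := by linarith
    obtain ⟨h1, -, -⟩ := hTC s (by linarith) himT (by
      intro ρ hρ hρ1 hρ2
      refine hzero ρ hρ (by linarith) ?_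
      calc |ρ.im - t| = |(ρ.im - s.im) + (s.im - t)| := by ring_nf
        _ ≤ |ρ.im - s.im| + |s.im - t| := abs_add_le _ _
        _ ≤ 3 + L ^ 2 := add_le_add hρ2 hs3
        _ ≤ 2 * L ^ 2 := by linarith)
    have h4 : 0 < ‖riemannZeta s‖ := lt_of_lt_of_le (Real.rpow_pos_of_pos him0 _) h1
    have h5 : riemannZeta s ≠ 0 := norm_pos_iff.1 h4
    have hs1' : s ≠ 1 := by
      rintro rfl
      simp at him0
    have han : AnalyticAt ℂ riemannZeta s := analyticOn_riemannZeta s hs1'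
    refine ⟨?_, ?_⟩
    · exact han.differentiableAt.inv h5
    · simp only
      rw [norm_inv]
      have h6 : (‖riemannZeta s‖)⁻¹ ≤ (s.im ^ (-(ε / 2)))⁻¹ :=
        inv_anti₀ (Real.rpow_pos_of_pos him0 _) h1
      rw [Real.rpow_neg him0.le, inv_inv] at h6
      exact h6.trans (Real.rpow_le_rpow him0.le him2 (by positivity))
  have hmain := hSHF cm (fun z => (riemannZeta z)⁻¹) σ t (L ^ 2) V W N
    (by linarith) (by linarith) (by linarith) hN1 hV0 (by simp [cm]) helper46_summableM le_rfl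
    helper46_DsM hpt
  refine lt_of_le_of_lt hmain ?_
  have hNσ : 1 ≤ N ^ σ := Real.one_le_rpow hN1 hσ0
  have hN0 : 0 < N := by linarith
  have hN22 : N ^ (2 : ℕ) ≤ X ^ (2 * A) := by
    calc N ^ (2 : ℕ) ≤ (X ^ A) ^ (2 : ℕ) := pow_le_pow_left₀ hN0.le hN2 2
      _ = X ^ (2 * A) := by
          rw [← Real.rpow_natCast, ← Real.rpow_mul hX0.le]
          congr 1
          push_cast
          ring
  have hVW : 0 ≤ V + W := by positivity
  have hXA0 : 0 ≤ X ^ (2 * A) * (V + W) * Real.exp (-L ^ 2) := by positivity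
  have h1 : N ^ (2 : ℕ) * (V + W) * Real.exp (-L ^ 2) ≤
      N ^ σ * (X ^ (2 * A) * (V + W) * Real.exp (-L ^ 2)) := by
    calc N ^ (2 : ℕ) * (V + W) * Real.exp (-L ^ 2)
        ≤ X ^ (2 * A) * (V + W) * Real.exp (-L ^ 2) := by
          refine mul_le_mul_of_nonneg_right ?_ (Real.exp_pos _).le
          exact mul_le_mul_of_nonneg_right hN22 hVW
      _ = 1 * (X ^ (2 * A) * (V + W) * Real.exp (-L ^ 2)) := (one_mul _).symm
      _ ≤ N ^ σ * (X ^ (2 * A) * (V + W) * Real.exp (-L ^ 2)) :=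
          mul_le_mul_of_nonneg_right hNσ hXA0
  have h2 : C * (V + X ^ (2 * A) * (V + W) * Real.exp (-L ^ 2)) < X ^ ε := by
    rw [hV, hXL]
    exact hfin
  calc C * (N ^ σ * V + N ^ (2 : ℕ) * (V + W) * Real.exp (-L ^ 2))
      ≤ C * (N ^ σ * V + N ^ σ * (X ^ (2 * A) * (V + W) * Real.exp (-L ^ 2))) :=
        mul_le_mul_of_nonneg_left (by linarith) hC.le
    _ = N ^ σ * (C * (V + X ^ (2 * A) * (V + W) * Real.exp (-L ^ 2))) := by ring
    _ < N ^ σ * X ^ ε := mul_lt_mul_of_pos_left h2 (by linarith)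

end Pool.Agent.EQ
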