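import Mathlib
import Pool.Agent.helper78.EQ.Spec

set_option autoImplicit false

open Complex MeasureTheory Set Metric

namespace Pool.Agent.EQ

open Pool.Agent.helper6.LD

theorem helper46_sub_le (A : Set ℝ) (T H : ℝ) (hH : 0 ≤ H) (hA : A ⊆ Icc T (T + H)) :
    volume A ≠ ⊤ ∧ (volume A).toReal ≤ H := by
  have h1 : volume A ≤ ENNReal.ofReal H := by
    refine (measure_mono hA).trans ?_
    rw [Real.volume_Icc]
    refine ENNReal.ofReal_le_ofReal ?_
    linarith
  refine ⟨ne_top_of_le_ne_top ENNReal.ofReal_ne_top h1, ?_⟩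
  exact ENNReal.toReal_le_of_le_ofReal hH h1

theorem I6 (hSZ : SZ_stmt) (hTRF : TRF_stmt) : I6_stmt := by
  intro θ b hθ hb hBd
  have hb0 : ∀ σ : ℝ, 1 / 2 ≤ σ → σ ≤ 1 → (0 : ℝ) ≤ b σ := by
    intro σ h1 h2
    exact hb.one.trans (hb.anti ⟨h1, h2⟩ ⟨by norm_num, le_rfl⟩ h2)
  refine hTRF θ b (fun _ => 0) Lv {Sm c1 1} hθ hb hb0 ?_ ?_ ?_
  · intro ε η hε hη
    refine ⟨1, one_pos, ?_⟩
    intro σ T H hσ1 hσ2 hT hH
    have h1 := (helper46_sub_le {t : ℝ | T ≤ t ∧ t ≤ T + H ∧
      (T + H + 2) ^ ε ≤ ‖riemannZeta ((σ : ℂ) + t * I)‖} T H (by linarith)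
      (fun t ht => ⟨ht.1, ht.2.1⟩)).2
    have h2 : 1 ≤ (T + H + 2) ^ η := Real.one_le_rpow (by linarith) hη.le
    refine h1.trans ?_
    nlinarith
  · intro ε δ η hε hδ hδ4 hη
    obtain ⟨X₀, K, hX₀, hK, hSZ⟩ := hSZ (ε / 4) (by positivity)
    refine ⟨Sm c1 1, rfl, min η (ε / 4), 2 * K / η + X₀ + 1, lt_min hη (by positivity),
      min_le_left _ _, by positivity, ?_⟩
    intro σ T H hσ1 hσ2 hT hH
    have hX1 : 1 ≤ T + H + 2 := by linarith
    have hXη : 1 ≤ (T + H + 2) ^ η := Real.one_le_rpow hX1 hη.le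
    have hC1 : 1 ≤ 2 * K / η + X₀ + 1 := by
      have : 0 ≤ 2 * K / η := by positivity
      linarith
    refine ⟨T, H, hT, le_rfl, le_rfl, ?_, ?_⟩
    · have h3 : 1 * 1 ≤ (2 * K / η + X₀ + 1) * (T + H + 2) ^ η :=
        mul_le_mul hC1 hXη zero_le_one (by linarith)
      nlinarith
    intro B hB hu
    have hσ := hu σ (by linarith) hσ2
    simp only [Real.rpow_zero]
    set X : ℝ := T + H + 2 with hX
    have hX0 : 0 < X := by linarith
    set A : Set ℝ := {t : ℝ | T ≤ t ∧ t ≤ T + H ∧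
      X ^ ε ≤ ‖riemannZeta ((σ : ℂ) + t * I)‖} with hA
    have hAH := helper46_sub_le A T H (by linarith) (fun t ht => ⟨ht.1, ht.2.1⟩)
    have hLv : Lv ε σ T H = (volume A).toReal := rfl
    rw [hLv]
    have hK0 : 0 ≤ 2 * K / η := by positivity
    rcases lt_or_ge X X₀ with hXX | hXX
    · have h1 : (volume A).toReal ≤ X₀ := by linarith [hAH.2]
      have h2 : X₀ * 1 ≤ (2 * K / η + X₀ + 1) * (X ^ η * (1 + B)) := by
        refine mul_le_mul (by linarith) ?_ zero_le_one (by linarith)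
        nlinarith
      nlinarith
    · set D : Set ℝ := {t : ℝ | T ≤ t ∧ t ≤ T + H ∧ ∃ N : ℝ, 1 ≤ N ∧ N ≤ X ^ (1 : ℝ) ∧
        N ^ σ * X ^ (min η (ε / 4)) ≤ ‖S c1 N t‖} with hD
      have hDH := helper46_sub_le D T H (by linarith) (fun t ht => ⟨ht.1, ht.2.1⟩)
      have hDB : (volume D).toReal ≤ B := hσ
      have hlog : 0 ≤ Real.log X := Real.log_nonneg hX1
      have hsub : A ⊆ Icc 0 (0 + 2 * K * Real.log X) ∪ D := by
        intro t ht
        obtain ⟨ht1, ht2, ht3⟩ := ht
        rcases le_or_gt t (2 * K * Real.log X) with htK | htK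
        · exact Or.inl ⟨by linarith, by linarith⟩
        · refine Or.inr ⟨ht1, ht2, ?_⟩
          by_contra hcon
          push Not at hcon
          have h1 := hSZ X σ t hXX (by linarith) hσ2 htK.le (by linarith) (by
            intro N hN1 hN2
            have h2 := hcon N hN1 (by rw [Real.rpow_one]; exact hN2)
            refine h2.le.trans ?_
            refine mul_le_mul_of_nonneg_left ?_ (Real.rpow_nonneg (by linarith) _)
            exact Real.rpow_le_rpow_of_exponent_le hX1 (min_le_right _ _))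
          have h2 : X ^ (3 * (ε / 4)) ≤ X ^ ε :=
            Real.rpow_le_rpow_of_exponent_le hX1 (by linarith)
          linarith
      have hI := helper46_sub_le (Icc 0 (0 + 2 * K * Real.log X)) 0 (2 * K * Real.log X)
        (by positivity) subset_rfl
      have hvol : (volume A).toReal ≤ 2 * K * Real.log X + B := by
        have h1 : volume A ≤ volume (Icc 0 (0 + 2 * K * Real.log X)) + volume D :=
          (measure_mono hsub).trans (measure_union_le _ _)
        have h2 : (volume A).toReal ≤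
            (volume (Icc 0 (0 + 2 * K * Real.log X)) + volume D).toReal :=
          ENNReal.toReal_mono (ENNReal.add_ne_top.2 ⟨hI.1, hDH.1⟩) h1
        rw [ENNReal.toReal_add hI.1 hDH.1] at h2
        linarith [hI.2]
      have hlogX : Real.log X ≤ X ^ η / η := Real.log_le_rpow_div hX0.le hη
      have h1 : 2 * K * Real.log X ≤ 2 * K / η * X ^ η := by
        calc 2 * K * Real.log X ≤ 2 * K * (X ^ η / η) :=
              mul_le_mul_of_nonneg_left hlogX (by linarith)
          _ = 2 * K / η * X ^ η := by ring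
      have h2 : B ≤ (2 * K / η + X₀ + 1) * X ^ η * B := by
        have h3 : 1 * 1 ≤ (2 * K / η + X₀ + 1) * X ^ η :=
          mul_le_mul hC1 hXη zero_le_one (by linarith)
        nlinarith
      have h4 : 2 * K / η * X ^ η ≤ (2 * K / η + X₀ + 1) * X ^ η :=
        mul_le_mul_of_nonneg_right (by linarith) (by linarith)
      calc (volume A).toReal ≤ 2 * K * Real.log X + B := hvol
        _ ≤ (2 * K / η + X₀ + 1) * X ^ η + (2 * K / η + X₀ + 1) * X ^ η * B := by linarith
        _ = (2 * K / η + X₀ + 1) * X ^ η * (1 + B) := by ring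
  · intro G hG
    rw [Set.mem_singleton_iff] at hG
    rw [hG]
    exact hBd

end Pool.Agent.EQ
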